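import Pool.Agent.H43.Chq2

namespace Pool.Agent.Results.MP_205740_an.Cex

open Set MeasureTheory Real Pool.Agent.H43

/-- `2π`-periodic weight functions. -/
def IsWeight (W : ℝ → ℝ) : Prop :=
  (∀ θ, 0 ≤ W θ) ∧ Function.Periodic W (2 * π) ∧ Measurable W ∧
    IntervalIntegrable W volume (-π) π ∧ 0 < ∫ θ in (-π)..π, W θ

/-- Real trigonometric polynomials of degree at most `n`. -/
def T (n : ℕ) : Submodule ℝ (ℝ → ℝ) :=
  Submodule.span ℝ {f | ∃ k : ℕ, k ≤ n ∧ (f = (fun θ => cos (k * θ)) ∨ f = fun θ => sin (k * θ))}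

/-- A Chebyshev-type quadrature of degree `n` for `W` with `N` nodes exists. -/
def Quad (W : ℝ → ℝ) (n N : ℕ) : Prop :=
  ∃ (θ : Fin N → ℝ) (w : ℝ), Monotone θ ∧ ∀ p ∈ T n, ∫ x in (-π)..π, p x * W x = w * ∑ j, p (θ j)

/-- The least number of nodes. -/
noncomputable def Nmin (W : ℝ → ℝ) (n : ℕ) : ℕ∞ := ⨅ (N : ℕ) (_ : Quad W n N), (N : ℕ∞)

theorem result : ∃ W h : ℝ → ℝ, IsWeight W ∧ Function.Periodic h (2 * π) ∧ Measurable h ∧
    (∀ θ, 1 / 3 < h θ ∧ h θ < 2) ∧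
    ∀ C : ℕ, ∃ n, 1 ≤ n ∧ C * Nmin W n < Nmin (fun θ => h θ * W θ) n := by
  have hp := pi_pos
  have s2 := mul_self_sqrt (zero_le_two (α := ℝ))
  have s1 : 1 / 3 < √2 - 1 := by nlinarith [sqrt_nonneg 2]
  have s0 : √2 - 1 ≠ 0 := by linarith
  have n1 : ∀ θ, 0 ≤ Chq.W1 θ := fun θ => by unfold Chq.W1; positivity
  have m1 : Measurable Chq.W1 := by unfold Chq.W1; fun_prop
  have e : ∀ θ, Chq.W1 (θ + π) = (√2 - 1)⁻¹ * Chq.W2 θ := fun θ => by
    rw [Chq.W2, inv_mul_cancel_left₀ s0]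
  have i2 : IntervalIntegrable (fun θ => Chq.W1 (θ + π)) volume (-π) π := by
    simp only [e]; exact Chq.W2_push.1.const_mul _
  have key : ∀ {n : ℕ} {p : ℝ → ℝ}, p ∈ Chq.T n →
      ∫ x in (-π)..π, p x * (Chq.W1 x + Chq.W1 (x + π)) =
      (∫ u in (-(π / 2))..(π / 2), p (2 * arcsin (sin u / 2))) +
      ∫ u in (-(π / 2))..(π / 2), p (2 * arcsin (sin u / 2) + -π) := fun {n p} hp => by
    rw [Chq.T_eq_V] at hp
    simp only [mul_add]
    rw [intervalIntegral.integral_add (Chq.W1_push.1.continuousOn_mul (Chq.V_cont hp).continuousOn)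
      (i2.continuousOn_mul (Chq.V_cont hp).continuousOn), Chq.W1_push.2]
    simp only [e, mul_left_comm (p _)]
    rw [intervalIntegral.integral_const_mul, Chq.W2_push.2 p (Chq.V_per hp),
      inv_mul_cancel_left₀ s0]
  refine ⟨fun θ => Chq.W1 θ + Chq.W1 (θ + π), fun θ => if 0 < cos θ then 1 else √2 - 1,
    ⟨fun θ => add_nonneg (n1 _) (n1 _), Chq.W1_per.add (Chq.W1_per.add_const π),
      m1.add (m1.comp (measurable_add_const π)), Chq.W1_push.1.add i2, ?_⟩,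
    fun θ => by simp, Measurable.ite (measurableSet_lt measurable_const measurable_cos)
      measurable_const measurable_const, fun θ => ?_, fun C => ?_⟩
  · have := key (n := 0) (p := fun _ => 1) (Chq.T_eq_V 0 ▸ Chq.V_one 0)
    simp only [one_mul] at this
    rw [this]; simpa using hp
  · simp only
    split_ifs <;> constructor <;> nlinarith
  · obtain ⟨k, hk⟩ := Chq.exists_k (2 * C)
    have hW : (fun θ => (if 0 < cos θ then 1 else √2 - 1) * (Chq.W1 θ + Chq.W1 (θ + π))) =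
        fun θ => Chq.W1 θ + Chq.W2 θ := by
      ext θ
      simp only [Chq.W2, Chq.W1, cos_add_pi]
      split_ifs with c
      · rw [sqrt_eq_zero_of_nonpos (by linarith : 4 * -cos θ - 2 ≤ 0)]; simp
      · rw [sqrt_eq_zero_of_nonpos (by linarith : 4 * cos θ - 2 ≤ 0)]; simp
    set n := 2 * 3 ^ k
    have q : Quad (fun θ => Chq.W1 θ + Chq.W1 (θ + π)) n (2 * (2 * n + 1)) :=
      Chq.quad_of (ι := Fin (2 * n + 1) ⊕ Fin (2 * n + 1))
        (Sum.elim (fun j => 2 * arcsin (sin (2 * π * j / (2 * n + 1 : ℕ)) / 2))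
          fun j => 2 * arcsin (sin (2 * π * j / (2 * n + 1 : ℕ)) / 2) + -π) (π / (2 * n + 1 : ℕ))
        (by simp; ring) fun p hp => by
        rw [key hp, Chq.exact_half (Nat.lt_succ_self _) hp, Chq.exact_half (Nat.lt_succ_self _)
          (p := fun θ => p (θ + -π)) (Chq.T_eq_V n ▸ Chq.V_shift (Chq.T_eq_V n ▸ hp) _),
          Fintype.sum_sum_type, mul_add]
        rfl
    refine ⟨n, Nat.succ_le_of_lt (by positivity), ?_⟩
    rw [hW]
    refine (mul_le_mul_right (iInf₂_le _ q) _).trans_lt (lt_of_lt_of_le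
      (by exact_mod_cast Nat.lt_succ_self _ :
        _ < ((C * (2 * (2 * n + 1)) + 1 : ℕ) : ℕ∞)) (le_iInf₂ fun N hN => ?_))
    exact_mod_cast Nat.succ_le_of_lt (not_le.1 fun c => hk N (c.trans (le_of_eq (by ring))) hN)

end Pool.Agent.Results.MP_205740_an.Cex
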